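import Pool.Agent.Helper68_Leo4.Basic
import Pool.Agent.Helper65_Leo3.Crt

/-!
Squad leo4, module PLU: the Selmer type group of `ℚ(√5)` vanishes.
-/

set_option autoImplicit false
set_option maxRecDepth 100000

open NumberField IsDedekindDomain Module
open Pool.Agent.Leo3

namespace Pool.Agent.Leo4.H24

open Pool.Agent.Leo3.H65 (norm_aut norm_three norm_add_of_lt)

variable {L : Type} [Field L]

theorem inLoc_mul {φ : L →+* Om} {s t : Om} (hs : InLoc φ s) (ht : InLoc φ t) :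
    InLoc φ (s * t) := fun ρ hρ => by rw [map_mul, hs ρ hρ, ht ρ hρ]

theorem inLoc_inv {φ : L →+* Om} {s : Om} (hs : InLoc φ s) : InLoc φ s⁻¹ :=
  fun ρ hρ => by rw [map_inv₀, hs ρ hρ]

theorem inLoc_self (φ : L →+* Om) (x : L) : InLoc φ (φ x) := fun _ hρ => hρ x

/-! ### norms of integral elements -/

theorem norm_int_le (n : ℤ) : ‖(n : Om)‖ ≤ 1 := by
  have h : (n : Om) = algebraMap ℚ_[3] Om (n : ℚ_[3]) := by simp
  rw [h, PadicAlgCl.norm_extends]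
  exact Padic.norm_int_le_one n

theorem norm_gold {F : Om} (hF : F ^ 2 = F + 1) : ‖F‖ = 1 := by
  have hna := PadicAlgCl.isNonarchimedean 3
  have h0 : F * (F - 1) = 1 := by linear_combination hF
  have h1 : ‖F‖ * ‖F - 1‖ = 1 := by rw [← norm_mul, h0, norm_one]
  have h2 : ‖F‖ ≤ 1 := by
    by_contra hc
    push Not at hc
    have h3 : ‖F‖ ^ 2 ≤ max ‖F‖ ‖(1 : Om)‖ := by
      rw [← norm_pow, hF]
      exact hna F 1
    rw [norm_one, max_eq_left hc.le] at h3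
    nlinarith
  have h4 : ‖F - 1‖ ≤ 1 := by
    have h5 := hna F (-1)
    rw [norm_neg, norm_one, max_eq_right h2] at h5
    rw [sub_eq_add_neg]
    exact h5
  nlinarith [norm_nonneg F, norm_nonneg (F - 1)]

theorem norm_ev_le {F : Om} (hF : F ^ 2 = F + 1) (x : O) : ‖ev F x‖ ≤ 1 := by
  have hna := PadicAlgCl.isNonarchimedean 3
  rw [ev]
  refine (hna _ _).trans (max_le (norm_int_le _) ?_)
  rw [norm_mul, norm_gold hF, mul_one]
  exact norm_int_le _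

theorem norm_two : ‖(2 : Om)‖ = 1 := by
  have h1 : (2 : Om) = algebraMap ℚ_[3] Om (2 : ℚ_[3]) :=
    (map_ofNat (algebraMap ℚ_[3] Om) 2).symm
  rw [h1, PadicAlgCl.norm_extends]
  have h2 : ‖((2 : ℕ) : ℚ_[3])‖ = 1 := by
    rw [Padic.norm_natCast_eq_one_iff]
    decide
  simpa using h2

/-! ### cubes modulo 9 -/

theorem cube_mod : ∀ s t : ZMod 9, ∀ a b : Fin 3,
    s ^ 3 + 3 * s * t ^ 2 + t ^ 3 = (![1, 0, 1] a : ZMod 9) * 2 ^ (b : ℕ) →
    3 * s ^ 2 * t + 3 * s * t ^ 2 + 2 * t ^ 3 = (![0, 1, 1] a : ZMod 9) * 2 ^ (b : ℕ) →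
    a = 0 ∧ b = 0 := by
  decide

theorem re_phi_pow (a : Fin 3) : (((phi ^ (a : ℕ)).re : ℤ) : ZMod 9) = ![1, 0, 1] a := by
  fin_cases a
  · simp [QuadraticAlgebra.re_one]
  · simp [phi]
  · simp [phi, sq]

theorem im_phi_pow (a : Fin 3) : (((phi ^ (a : ℕ)).im : ℤ) : ZMod 9) = ![0, 1, 1] a := by
  fin_cases a
  · simp [QuadraticAlgebra.im_one]
  · simp [phi]
  · simp [phi, sq]

theorem re_cube (x : O) : (x ^ 3).re = x.re ^ 3 + 3 * x.re * x.im ^ 2 + x.im ^ 3 := by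
  have : x ^ 3 = x * x * x := by ring
  rw [this]
  simp only [QuadraticAlgebra.re_mul, QuadraticAlgebra.im_mul]
  ring

theorem im_cube (x : O) :
    (x ^ 3).im = 3 * x.re ^ 2 * x.im + 3 * x.re * x.im ^ 2 + 2 * x.im ^ 3 := by
  have : x ^ 3 = x * x * x := by ring
  rw [this]
  simp only [QuadraticAlgebra.re_mul, QuadraticAlgebra.im_mul]
  ring

theorem nine_dvd {z : O} (h : (3 : O) ^ 2 ∣ z) : ((z.re : ℤ) : ZMod 9) = 0 ∧
    ((z.im : ℤ) : ZMod 9) = 0 := by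
  obtain ⟨w, rfl⟩ := h
  have h1 : (3 : O) ^ 2 = ((9 : ℤ) : O) := by push_cast; norm_num
  rw [h1]
  have h9 : (9 : ZMod 9) = 0 := rfl
  constructor
  · simp only [QuadraticAlgebra.re_mul, QuadraticAlgebra.re_intCast, QuadraticAlgebra.im_intCast]
    push_cast
    rw [h9]
    ring
  · simp only [QuadraticAlgebra.im_mul, QuadraticAlgebra.re_intCast, QuadraticAlgebra.im_intCast]
    push_cast
    rw [h9]
    ring

theorem cube_class (x : O) (a b : ℕ) (ha : a < 3) (hb : b < 3)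
    (h : (3 : O) ^ 2 ∣ x ^ 3 - phi ^ a * 2 ^ b) : a = 0 ∧ b = 0 := by
  obtain ⟨h1, h2⟩ := nine_dvd h
  have h3 : (2 : O) ^ b = (((2 : ℤ) ^ b : ℤ) : O) := by push_cast; rfl
  rw [h3, QuadraticAlgebra.re_sub, re_cube] at h1
  rw [h3, QuadraticAlgebra.im_sub, im_cube] at h2
  have h4 := cube_mod (x.re : ZMod 9) (x.im : ZMod 9) ⟨a, ha⟩ ⟨b, hb⟩
  rw [← re_phi_pow, ← im_phi_pow] at h4
  have h5 := h4 (by
    rw [← sub_eq_zero, ← h1]
    simp only [QuadraticAlgebra.re_mul, QuadraticAlgebra.re_intCast, QuadraticAlgebra.im_intCast,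
      Int.cast_id]
    push_cast
    ring) (by
    rw [← sub_eq_zero, ← h2]
    simp only [QuadraticAlgebra.im_mul, QuadraticAlgebra.re_intCast, QuadraticAlgebra.im_intCast,
      Int.cast_id]
    push_cast
    ring)
  exact ⟨congrArg Fin.val h5.1, congrArg Fin.val h5.2⟩

/-- The local statement. -/
theorem local_claim {k : Type} [Field k] {f : k} (hf : f ^ 2 = f + 1) (ψ : k →+* Om)
    (hp3 : Prime (3 : O))
    (h2 : ∀ t : Om, InLoc ψ t → ‖t‖ ≤ 1 → ∀ n : ℕ, ∃ x : O, ‖t - ψ (ev f x)‖ ≤ (3 : ℝ)⁻¹ ^ n)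
    (h3 : ∀ (y : O) (n : ℕ), ‖ψ (ev f y)‖ ≤ (3 : ℝ)⁻¹ ^ n → (3 : O) ^ n ∣ y)
    {t : Om} (ht : InLoc ψ t) {a b c : ℕ} (ha : a < 3) (hb : b < 3) (hc : c < 3)
    (h : t ^ 3 = ψ f ^ a * 2 ^ b * 3 ^ c) : a = 0 ∧ b = 0 ∧ c = 0 := by
  have hna := PadicAlgCl.isNonarchimedean 3
  have hF : (ψ f) ^ 2 = ψ f + 1 := by rw [← map_pow, hf, map_add, map_one]
  have hn : ‖t‖ ^ 3 = (3 : ℝ)⁻¹ ^ c := by
    rw [← norm_pow, h, norm_mul, norm_mul, norm_pow, norm_pow, norm_pow, norm_gold hF, norm_two,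
      norm_three]
    simp
  have hle : ‖t‖ ≤ 1 := by
    by_contra hcon
    push Not at hcon
    have h4 : 1 < ‖t‖ ^ 3 := one_lt_pow₀ hcon (by norm_num)
    rw [hn] at h4
    exact absurd (pow_le_one₀ (by norm_num) (by norm_num) : (3 : ℝ)⁻¹ ^ c ≤ 1) (not_le.2 h4)
  have hc0 : c = 0 := by
    by_contra hc1
    have hb1 : (3 : ℝ)⁻¹ ^ c ≤ 3⁻¹ := by
      have := pow_le_pow_of_le_one (a := (3 : ℝ)⁻¹) (by norm_num) (by norm_num)
        (Nat.one_le_iff_ne_zero.2 hc1)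
      simpa using this
    have hb2 : (3 : ℝ)⁻¹ ^ 2 ≤ (3 : ℝ)⁻¹ ^ c :=
      pow_le_pow_of_le_one (by norm_num) (by norm_num) (by omega)
    obtain ⟨x, hx⟩ := h2 t ht hle 1
    rw [pow_one] at hx
    have hX : ‖ψ (ev f x)‖ ≤ max ‖t‖ (3 : ℝ)⁻¹ := by
      have e1 : ψ (ev f x) = t + -(t - ψ (ev f x)) := by ring
      rw [e1]
      refine (hna _ _).trans (max_le_max le_rfl ?_)
      rw [norm_neg]
      exact hx
    have hX3 : ‖ψ (ev f (x ^ 3))‖ ≤ (3 : ℝ)⁻¹ ^ 1 := by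
      rw [ev_pow hf, map_pow, norm_pow, pow_one]
      refine (pow_le_pow_left₀ (norm_nonneg _) hX 3).trans ?_
      rcases le_total ‖t‖ (3 : ℝ)⁻¹ with h5 | h5
      · rw [max_eq_right h5]; norm_num
      · rw [max_eq_left h5, hn]; exact hb1
    have h6 : (3 : O) ∣ x ^ 3 := by
      have := h3 _ _ hX3
      rwa [pow_one] at this
    obtain ⟨y, rfl⟩ := hp3.dvd_of_dvd_pow h6
    have h7 : ‖ψ (ev f (3 * y))‖ ≤ (3 : ℝ)⁻¹ := by
      rw [ev_mul hf, map_mul, map_ev ψ f y, ev_ofNat, map_ofNat, norm_mul, norm_three]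
      have := norm_ev_le hF y
      nlinarith
    have h8 : ‖t‖ ≤ (3 : ℝ)⁻¹ := by
      have e1 : t = (t - ψ (ev f (3 * y))) + ψ (ev f (3 * y)) := by ring
      rw [e1]
      exact (hna _ _).trans (max_le hx h7)
    have h9 : ‖t‖ ^ 3 ≤ (3 : ℝ)⁻¹ ^ 3 := pow_le_pow_left₀ (norm_nonneg _) h8 3
    rw [hn] at h9
    have h10 := hb2.trans h9
    norm_num at h10
  subst hc0
  obtain ⟨x, hx⟩ := h2 t ht hle 2
  have hd : (3 : O) ^ 2 ∣ x ^ 3 - phi ^ a * 2 ^ b := by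
    apply h3
    have e1 : ψ (ev f (x ^ 3 - phi ^ a * 2 ^ b)) = -((t - ψ (ev f x)) *
        (t ^ 2 + t * ψ (ev f x) + ψ (ev f x) ^ 2)) := by
      have e2 : ψ (ev f (phi ^ a * 2 ^ b)) = t ^ 3 := by
        rw [h, ev_mul hf, ev_pow hf, ev_pow hf, ev_phi, map_mul, map_pow, map_pow, ev_ofNat,
          map_ofNat]
        simp
      rw [ev_sub, map_sub, e2, ev_pow hf, map_pow]
      ring
    have hX : ‖ψ (ev f x)‖ ≤ 1 := by
      rw [map_ev]; exact norm_ev_le hF x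
    rw [e1, norm_neg, norm_mul]
    have h5 : ‖t ^ 2 + t * ψ (ev f x) + ψ (ev f x) ^ 2‖ ≤ 1 := by
      refine (hna _ _).trans (max_le ((hna _ _).trans (max_le ?_ ?_)) ?_)
      · rw [norm_pow]; exact pow_le_one₀ (norm_nonneg _) hle
      · rw [norm_mul]; exact mul_le_one₀ hle (norm_nonneg _) hX
      · rw [norm_pow]; exact pow_le_one₀ (norm_nonneg _) hX
    calc ‖t - ψ (ev f x)‖ * ‖t ^ 2 + t * ψ (ev f x) + ψ (ev f x) ^ 2‖
        ≤ (3 : ℝ)⁻¹ ^ 2 * 1 := mul_le_mul hx h5 (norm_nonneg _) (by positivity)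
      _ = (3 : ℝ)⁻¹ ^ 2 := mul_one _
  obtain ⟨h4, h5⟩ := cube_class x a b ha hb hd
  exact ⟨h4, h5, rfl⟩

/-- Units, as integral powers of `f`. -/
theorem unit_form (huni : UniStmt) {k : Type} [Field k] {f : k} (hf : f ^ 2 = f + 1)
    {u : O} (hu : IsUnit u) : ∃ (e : k) (n : ℤ), e ^ 3 = e ∧ e ≠ 0 ∧ ev f u = e * f ^ n := by
  have hf0 : f ≠ 0 := by
    rintro rfl
    simp at hf
  obtain ⟨n, h | h | h | h⟩ := huni u hu
  · refine ⟨1, n, by ring, one_ne_zero, ?_⟩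
    rw [h, ev_pow hf, ev_phi, one_mul, zpow_natCast]
  · refine ⟨-1, n, by ring, neg_ne_zero.2 one_ne_zero, ?_⟩
    rw [h, ev_neg, ev_pow hf, ev_phi, zpow_natCast]
    ring
  · refine ⟨1, -n, by ring, one_ne_zero, ?_⟩
    have h1 : ev f u * f ^ n = 1 := by
      have h2 : ev f (u * phi ^ n) = 1 := by rw [h, ev_one]
      rwa [ev_mul hf, ev_pow hf, ev_phi] at h2
    rw [zpow_neg, zpow_natCast, one_mul]
    exact eq_inv_of_mul_eq_one_left h1
  · refine ⟨-1, -n, by ring, neg_ne_zero.2 one_ne_zero, ?_⟩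
    have h1 : ev f u * f ^ n = -1 := by
      have h2 : ev f (u * phi ^ n) = -1 := by rw [h, ev_neg, ev_one]
      rwa [ev_mul hf, ev_pow hf, ev_phi] at h2
    rw [zpow_neg, zpow_natCast]
    have h3 : f ^ n ≠ 0 := pow_ne_zero _ hf0
    field_simp
    linear_combination h1

theorem plu (hokr : OkrStmt) (huni : UniStmt) (hcbe : CbeStmt) (hapx : ApxStmt)
    (hlc2 : Lc2Stmt) : PluStmt := by
  intro k K _ _ _ _ _ f hk hf hK hmu x y hx hy hmul hloc
  obtain ⟨_, hpid, hp2, hp3, -⟩ := hokr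
  have := hpid
  have hf0 : f ≠ 0 := by
    rintro rfl
    simp at hf
  have hfin : ∀ p z : O, Prime p → z ≠ 0 → FiniteMultiplicity p z :=
    fun p z hp hz => FiniteMultiplicity.of_prime_left hp hz
  have hmm : ∀ p a b : O, Prime p → a ≠ 0 → b ≠ 0 →
      multiplicity p (a * b) = multiplicity p a + multiplicity p b :=
    fun p a b hp ha hb => multiplicity_mul hp (hfin p _ hp (mul_ne_zero ha hb))
  have hmp : ∀ (p a : O) (n : ℕ), Prime p → a ≠ 0 →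
      multiplicity p (a ^ n) = n * multiplicity p a :=
    fun p a n hp ha => FiniteMultiplicity.multiplicity_pow hp (hfin p a hp ha)
  have h20 : (2 : O) ≠ 0 := hp2.ne_zero
  have h30 : (3 : O) ≠ 0 := hp3.ne_zero
  have h23 : ¬ (2 : O) ∣ 3 := by
    intro h
    have h1 : (2 : O) ∣ 1 := by
      have := dvd_sub h (dvd_refl (2 : O))
      have e : (3 : O) - 2 = 1 := by norm_num
      rwa [e] at this
    exact hp2.not_isUnit (isUnit_of_dvd_one h1)
  have h32 : ¬ (3 : O) ∣ 2 := by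
    intro h
    have h1 : (3 : O) ∣ 1 := by
      have := dvd_sub (dvd_refl (3 : O)) h
      have e : (3 : O) - 2 = 1 := by norm_num
      rwa [e] at this
    exact hp3.not_isUnit (isUnit_of_dvd_one h1)
  obtain ⟨v2, hv2⟩ : ∃ n : ℕ, n = multiplicity 2 (x * y ^ 2) := ⟨_, rfl⟩
  obtain ⟨v3, hv3⟩ : ∃ n : ℕ, n = multiplicity 3 (x * y ^ 2) := ⟨_, rfl⟩
  have hxy : x * y ^ 2 ≠ 0 := mul_ne_zero hx (pow_ne_zero _ hy)
  have hw : ∀ p : O, Prime p → multiplicity p (2 ^ (2 * v2) * 3 ^ (2 * v3) * (x * y ^ 2)) =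
      2 * v2 * multiplicity p 2 + 2 * v3 * multiplicity p 3 + multiplicity p (x * y ^ 2) := by
    intro p hp
    rw [hmm p _ _ hp (mul_ne_zero (pow_ne_zero _ h20) (pow_ne_zero _ h30)) hxy,
      hmm p _ _ hp (pow_ne_zero _ h20) (pow_ne_zero _ h30), hmp p 2 _ hp h20, hmp p 3 _ hp h30]
  obtain ⟨u, y', hu, hwu⟩ := hcbe (2 ^ (2 * v2) * 3 ^ (2 * v3) * (x * y ^ 2))
    (mul_ne_zero (mul_ne_zero (pow_ne_zero _ h20) (pow_ne_zero _ h30)) hxy) (by
    intro p hp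
    rw [hw p hp]
    by_cases h6 : p ∣ 6
    · have h6' : (6 : O) = 2 * 3 := by norm_num
      rw [h6'] at h6
      rcases hp.dvd_or_dvd h6 with h | h
      · have has : ∀ z : O, multiplicity p z = multiplicity 2 z := fun z =>
          (multiplicity_eq_of_associated_left (hp.associated_of_dvd hp2 h)).symm
        rw [has, has, has, multiplicity_self, ← hv2, multiplicity_eq_zero.2 h23]
        exact ⟨v2, by ring⟩
      · have has : ∀ z : O, multiplicity p z = multiplicity 3 z := fun z =>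
          (multiplicity_eq_of_associated_left (hp.associated_of_dvd hp3 h)).symm
        rw [has, has, has, multiplicity_self, ← hv3, multiplicity_eq_zero.2 h32]
        exact ⟨v3, by ring⟩
    · have hn2 : ¬ p ∣ 2 := fun h => h6 (h.trans ⟨3, by norm_num⟩)
      have hn3 : ¬ p ∣ 3 := fun h => h6 (h.trans ⟨2, by norm_num⟩)
      rw [multiplicity_eq_zero.2 hn2, multiplicity_eq_zero.2 hn3,
        hmm p _ _ hp hx (pow_ne_zero _ hy), hmp p y 2 hp hy]
      have := hmul p hp h6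
      omega)
  obtain ⟨e, n0, he3, he0, hun⟩ := unit_form huni hf hu
  -- the equation in `k`
  have hX0 : ev f x ≠ 0 := ev_ne_zero hf hx
  have hY0 : ev f y ≠ 0 := ev_ne_zero hf hy
  have hk1 := congrArg (ev f) hwu
  have hev2 : ev f (2 : O) = 2 := ev_ofNat f 2
  have hev3 : ev f (3 : O) = 3 := ev_ofNat f 3
  simp only [ev_mul hf, ev_pow hf, hev2, hev3, hun] at hk1
  have hz1 : f ^ n0 = (f ^ (n0 / 3)) ^ 3 * f ^ (n0 % 3).toNat := by
    have h1 : ((n0 % 3).toNat : ℤ) = n0 % 3 := Int.toNat_of_nonneg (Int.emod_nonneg _ (by norm_num))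
    rw [← zpow_natCast f (n0 % 3).toNat, h1, ← zpow_natCast, ← zpow_mul, ← zpow_add₀ hf0]
    congr 1
    push_cast
    omega
  have hz2 : ∀ (d : k) (v : ℕ), d ^ v = (d ^ (v / 3)) ^ 3 * d ^ (v % 3) := by
    intro d v
    rw [← pow_mul, ← pow_add]
    congr 1
    omega
  have h2k : (2 : k) ≠ 0 := two_ne_zero
  have h3k : (3 : k) ≠ 0 := three_ne_zero
  obtain ⟨s, hs⟩ : ∃ s : k, s = e * f ^ (n0 / 3) * 2 ^ (v2 / 3) * 3 ^ (v3 / 3) * ev f y' /
      (ev f y * 2 ^ v2 * 3 ^ v3) := ⟨_, rfl⟩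
  have hzs : ev f x / ev f y = s ^ 3 * (f ^ (n0 % 3).toNat * 2 ^ (v2 % 3) * 3 ^ (v3 % 3)) := by
    have hk2 : (2 : k) ^ (2 * v2) = (2 ^ v2) ^ 2 := by rw [mul_comm, pow_mul]
    have hk3 : (3 : k) ^ (2 * v3) = (3 ^ v3) ^ 2 := by rw [mul_comm, pow_mul]
    rw [hk2, hk3, hz1] at hk1
    have h2v : (2 : k) ^ v2 ≠ 0 := pow_ne_zero _ h2k
    have h3v : (3 : k) ^ v3 ≠ 0 := pow_ne_zero _ h3k
    rw [hs, div_pow, div_mul_eq_mul_div, div_eq_div_iff hY0
      (pow_ne_zero _ (mul_ne_zero (mul_ne_zero hY0 h2v) h3v))]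
    have g2 := hz2 2 v2
    have g3 := hz2 3 v3
    generalize (2 : k) ^ v2 = T2 at *
    generalize (3 : k) ^ v3 = T3 at *
    generalize (2 : k) ^ (v2 / 3) = B at *
    generalize (3 : k) ^ (v3 / 3) = C at *
    generalize (2 : k) ^ (v2 % 3) = B' at *
    generalize (3 : k) ^ (v3 % 3) = C' at *
    generalize f ^ (n0 / 3) = A at *
    generalize f ^ (n0 % 3).toNat = A' at *
    generalize ev f x = X at *
    generalize ev f y = Y at *
    generalize ev f y' = Y' at *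
    calc X * (Y * T2 * T3) ^ 3 = (T2 ^ 2 * T3 ^ 2 * (X * Y ^ 2)) * (Y * T2 * T3) := by ring
      _ = (e * (A ^ 3 * A') * Y' ^ 3) * (Y * T2 * T3) := by rw [hk1]
      _ = (e * (A ^ 3 * A') * Y' ^ 3) * (Y * (B ^ 3 * B') * (C ^ 3 * C')) := by rw [← g2, ← g3]
      _ = (e ^ 3 * (A ^ 3 * A') * Y' ^ 3) * (Y * (B ^ 3 * B') * (C ^ 3 * C')) := by rw [he3]
      _ = (e * A * B * C * Y') ^ 3 * (A' * B' * C') * Y := by ring
  -- the local condition
  have : Algebra.IsQuadraticExtension k K := ⟨hK⟩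
  have : FiniteDimensional k K := Module.finite_of_finrank_pos (by rw [hK]; norm_num)
  have hs0 : s ≠ 0 := by
    intro h0
    rw [h0] at hzs
    have : ev f x / ev f y = 0 := by rw [hzs]; ring
    exact (div_ne_zero hX0 hY0) this
  obtain ⟨φ⟩ : Nonempty (K →+* Om) := ⟨((IsAlgClosed.lift : K →ₐ[ℚ] Om) : K →+* Om)⟩
  obtain ⟨t, ht, ht3⟩ := hloc φ
  have ht' : InLoc (φ.comp (algebraMap k K)) t := by
    apply hlc2 k K hmu φ t ht
    rw [ht3]
    exact inLoc_self (φ.comp (algebraMap k K)) (ev f x / ev f y)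
  obtain ⟨ψ, hψ⟩ : ∃ ψ : k →+* Om, ψ = φ.comp (algebraMap k K) := ⟨_, rfl⟩
  rw [← hψ] at ht'
  have ht3' : t ^ 3 = ψ (ev f x / ev f y) := by rw [ht3, hψ]; rfl
  obtain ⟨-, ha2, ha3⟩ := hapx k f hk hf ψ
  have hψs : ψ s ≠ 0 := by
    intro h
    exact hs0 ((map_eq_zero ψ).1 h)
  have key := local_claim hf ψ hp3 ha2 ha3 (t := t * (ψ s)⁻¹)
    (inLoc_mul ht' (inLoc_inv (inLoc_self ψ s)))
    (a := (n0 % 3).toNat) (b := v2 % 3) (c := v3 % 3)
    (by have := Int.emod_lt_of_pos n0 (show (0 : ℤ) < 3 by norm_num); omega)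
    (Nat.mod_lt _ (by norm_num)) (Nat.mod_lt _ (by norm_num)) (by
      rw [mul_pow, ht3', hzs]
      simp only [map_mul, map_pow, map_ofNat, inv_pow]
      field_simp)
  obtain ⟨k1, k2, k3⟩ := key
  refine ⟨s, ?_⟩
  rw [hzs, k1, k2, k3]
  ring

end Pool.Agent.Leo4.H24
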